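import Pool.Agent.P.MP_94fe55_nt.Reps

/-! Lattice points on a circle with arbitrary centre. -/

namespace Pool.Agent.P.MP_1a0d2e_nt

open Finset Pool.Agent.P.MP_94fe55_nt.RepsP

theorem cop1 {x w g : ℤ} (h : x ^ 2 + w ^ 2 = g) (hc : IsCoprime x w) : IsCoprime g w := by
  have := (hc.pow_left (m := 2)).add_mul_left_left w
  have e : x ^ 2 + w * w = g := by linear_combination h
  rwa [e] at this

theorem same1 {g x0 w0 x1 w1 x2 w2 : ℤ} (hg : 0 < g)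
    (h0 : x0 ^ 2 + w0 ^ 2 = g) (c0 : IsCoprime x0 w0)
    (h1 : x1 ^ 2 + w1 ^ 2 = g) (c1 : IsCoprime x1 w1) (h2 : x2 ^ 2 + w2 ^ 2 = g)
    (e : Int.gcd g (x1 * w0 - x0 * w1) = Int.gcd g (x2 * w0 - x0 * w2)) :
    ∃ u ∈ Icc (-2 : ℤ) 2, ∃ v ∈ Icc (-2 : ℤ) 2,
      2 * x2 = u * x1 - v * w1 ∧ 2 * w2 = u * w1 + v * x1 := by
  obtain ⟨d, hd⟩ : ∃ d : ℤ, d = Int.gcd g (x1 * w0 - x0 * w1) := ⟨_, rfl⟩
  have hd2 : d = Int.gcd g (x2 * w0 - x0 * w2) := by rw [hd, e]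
  have hdg : d ∣ g := by rw [hd]; exact Int.gcd_dvd_left _ _
  obtain ⟨h, hh⟩ := hdg
  have hd0 : d ≠ 0 := by rintro h'; rw [h'] at hh; omega
  have a1 : d ∣ x1 * w0 - x0 * w1 := by rw [hd]; exact Int.gcd_dvd_right _ _
  have a2 : d ∣ x2 * w0 - x0 * w2 := by rw [hd2]; exact Int.gcd_dvd_right _ _
  have b1 : h ∣ x1 * w0 + x0 * w1 := cofactor hd0 hh hd
    ⟨w0 ^ 2 - w1 ^ 2, by linear_combination w0 ^ 2 * h1 - w1 ^ 2 * h0⟩
  have b2 : h ∣ x2 * w0 + x0 * w2 := cofactor hd0 hh hd2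
    ⟨w0 ^ 2 - w2 ^ 2, by linear_combination w0 ^ 2 * h2 - w2 ^ 2 * h0⟩
  have g0 := cop1 h0 c0
  have g1 := cop1 h1 c1
  have dE : d ∣ x1 * w2 - x2 * w1 := by
    refine (g0.of_isCoprime_of_dvd_left ⟨h, hh⟩).dvd_of_dvd_mul_left ?_
    have : w0 * (x1 * w2 - x2 * w1) = (x1 * w0 - x0 * w1) * w2 - (x2 * w0 - x0 * w2) * w1 := by ring
    rw [this]
    exact dvd_sub (a1.mul_right _) (a2.mul_right _)
  have hE : h ∣ x1 * w2 - x2 * w1 := by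
    refine (g0.of_isCoprime_of_dvd_left ⟨d, by rw [hh]; ring⟩).dvd_of_dvd_mul_left ?_
    have : w0 * (x1 * w2 - x2 * w1) = (x1 * w0 + x0 * w1) * w2 - (x2 * w0 + x0 * w2) * w1 := by ring
    rw [this]
    exact dvd_sub (b1.mul_right _) (b2.mul_right _)
  obtain ⟨t, ht⟩ : ∃ t : ℕ, t = Int.gcd d h := ⟨_, rfl⟩
  have td : (t : ℤ) ∣ d := by rw [ht]; exact Int.gcd_dvd_left _ _
  have th : (t : ℤ) ∣ h := by rw [ht]; exact Int.gcd_dvd_right _ _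
  have tg : (t : ℤ) ∣ g := td.trans ⟨h, hh⟩
  have t2 : (t : ℤ) ^ 2 ∣ g := by rw [hh, sq]; exact mul_dvd_mul td th
  have t3 : (t : ℤ) ∣ 2 * x1 := by
    refine (g0.of_isCoprime_of_dvd_left tg).dvd_of_dvd_mul_left ?_
    have : w0 * (2 * x1) = (x1 * w0 - x0 * w1) + (x1 * w0 + x0 * w1) := by ring
    rw [this]
    exact dvd_add (td.trans a1) (th.trans b1)
  have t4 : (t : ℤ) ^ 2 ∣ 2 ^ 2 := by
    refine ((g1.of_isCoprime_of_dvd_left tg).pow (m := 2) (n := 2)).dvd_of_dvd_mul_left ?_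
    have : w1 ^ 2 * 2 ^ 2 = g * 4 - (2 * x1) ^ 2 := by linear_combination 4 * h1
    rw [this]
    exact dvd_sub (t2.mul_right _) (pow_dvd_pow_of_dvd t3 2)
  obtain ⟨s, hs⟩ := (Int.pow_dvd_pow_iff two_ne_zero).1 t4
  have gE : g ∣ t * (x1 * w2 - x2 * w1) := by
    have e2 := Int.gcd_eq_gcd_ab d h
    rw [← ht] at e2
    obtain ⟨p, hp⟩ := dE
    obtain ⟨q, hq⟩ := hE
    refine ⟨q * Int.gcdA d h + p * Int.gcdB d h, ?_⟩
    rw [e2, hh]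
    linear_combination (d * Int.gcdA d h) * hq + (h * Int.gcdB d h) * hp
  have id1 : (x1 * x2 + w1 * w2) ^ 2 + (x1 * w2 - x2 * w1) ^ 2 = g ^ 2 := by
    have : g ^ 2 = (x1 ^ 2 + w1 ^ 2) * (x2 ^ 2 + w2 ^ 2) := by rw [h1, h2]; ring
    rw [this]; ring
  have gE2 : g ∣ 2 * (x1 * w2 - x2 * w1) := by
    rw [hs, mul_comm (t : ℤ), mul_assoc]
    exact gE.mul_left s
  obtain ⟨v, hv⟩ := gE2
  have id2 : (2 * (x1 * x2 + w1 * w2)) ^ 2 = g ^ 2 * (4 - v ^ 2) := by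
    linear_combination 4 * id1 - (2 * (x1 * w2 - x2 * w1) + g * v) * hv
  obtain ⟨u, hu⟩ := (Int.pow_dvd_pow_iff two_ne_zero).1 ⟨_, id2⟩
  have id3 : u ^ 2 + v ^ 2 = 4 := by
    apply mul_left_cancel₀ (pow_ne_zero 2 hg.ne')
    rw [hu] at id2
    linear_combination id2
  refine ⟨u, mem_Icc.2 ⟨by nlinarith, by nlinarith⟩, v, mem_Icc.2 ⟨by nlinarith, by nlinarith⟩,
    mul_left_cancel₀ hg.ne' ?_, mul_left_cancel₀ hg.ne' ?_⟩
  · linear_combination (-2 * x2) * h1 + x1 * hu - w1 * hv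
  · linear_combination (-2 * w2) * h1 + w1 * hu + x1 * hv

theorem prim1 (g : ℕ) (hg : 0 < g) (S : Finset (ℤ × ℤ))
    (hS : ∀ ξ ∈ S, ξ.1 ^ 2 + ξ.2 ^ 2 = g ∧ IsCoprime ξ.1 ξ.2) :
    S.card ≤ 25 * g.divisors.card := by
  rcases S.eq_empty_or_nonempty with rfl | ⟨⟨x0, w0⟩, h0⟩
  · simp
  refine card_le_mul_card_image_of_maps_to
    (f := fun ξ => Int.gcd g (ξ.1 * w0 - x0 * ξ.2)) (fun ξ _ => ?_) 25 (fun d _ => ?_)
  · rw [Nat.mem_divisors]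
    exact ⟨by exact_mod_cast Int.gcd_dvd_left (g : ℤ) (ξ.1 * w0 - x0 * ξ.2), hg.ne'⟩
  · rcases (S.filter (fun ξ => Int.gcd g (ξ.1 * w0 - x0 * ξ.2) = d)).eq_empty_or_nonempty with
      h | ⟨⟨x1, w1⟩, h1⟩
    · rw [h]; simp
    · refine le_trans (card_le_card (t := ((Icc (-2 : ℤ) 2) ×ˢ (Icc (-2 : ℤ) 2)).image
        (fun z : ℤ × ℤ => ((z.1 * x1 - z.2 * w1) / 2, (z.1 * w1 + z.2 * x1) / 2))) ?_)
        (card_image_le.trans (by simp))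
      rintro ⟨x2, w2⟩ h2
      rw [mem_filter] at h1 h2
      obtain ⟨u, hu, v, hv, e1, e2⟩ := same1 (by exact_mod_cast hg) (hS _ h0).1 (hS _ h0).2
        (hS _ h1.1).1 (hS _ h1.1).2 (hS _ h2.1).1 (h1.2.trans h2.2.symm)
      refine mem_image.2 ⟨(u, v), mem_product.2 ⟨hu, hv⟩, ?_⟩
      simp only at e1 e2 ⊢
      rw [← e1, ← e2]
      simp

theorem all1 (g : ℕ) (hg : 0 < g) (S : Finset (ℤ × ℤ)) (hS : ∀ ξ ∈ S, ξ.1 ^ 2 + ξ.2 ^ 2 = g) :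
    S.card ≤ 25 * g.divisors.card * g.divisors.card := by
  refine card_le_mul_card_image_of_maps_to (f := fun ξ => Int.gcd ξ.1 ξ.2) (fun ξ hξ => ?_) _
    (fun t ht => ?_)
  · rw [Nat.mem_divisors]
    refine ⟨?_, hg.ne'⟩
    have : ((Int.gcd ξ.1 ξ.2 : ℕ) : ℤ) ∣ g := by
      rw [← hS ξ hξ]
      exact dvd_add (dvd_pow (Int.gcd_dvd_left _ _) two_ne_zero)
        (dvd_pow (Int.gcd_dvd_right _ _) two_ne_zero)
    exact_mod_cast this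
  · have ht0 : 0 < t := Nat.pos_of_mem_divisors ht
    have ht1 : (t : ℤ) ≠ 0 := by exact_mod_cast ht0.ne'
    rcases (S.filter (fun ξ => Int.gcd ξ.1 ξ.2 = t)).eq_empty_or_nonempty with h | ⟨ξ0, h0⟩
    · rw [h]; simp
    have key : ∀ ξ ∈ S.filter (fun ξ => Int.gcd ξ.1 ξ.2 = t),
        ξ.1 = t * (ξ.1 / t) ∧ ξ.2 = t * (ξ.2 / t) ∧ IsCoprime (ξ.1 / t) (ξ.2 / t) := by
      intro ξ hξ
      have e := (mem_filter.1 hξ).2
      refine ⟨?_, ?_, ?_⟩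
      · rw [Int.mul_ediv_cancel' (e ▸ Int.gcd_dvd_left _ _)]
      · rw [Int.mul_ediv_cancel' (e ▸ Int.gcd_dvd_right _ _)]
      · rw [Int.isCoprime_iff_gcd_eq_one, ← e]
        exact Int.gcd_div_gcd_div_gcd (e ▸ ht0)
    have hdv : t ^ 2 ∣ g := by
      have : (t : ℤ) ^ 2 ∣ g := by
        rw [← hS ξ0 (mem_filter.1 h0).1]
        refine ⟨(ξ0.1 / t) ^ 2 + (ξ0.2 / t) ^ 2, ?_⟩
        linear_combination (ξ0.1 + t * (ξ0.1 / t)) * (key ξ0 h0).1 +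
          (ξ0.2 + t * (ξ0.2 / t)) * (key ξ0 h0).2.1
      exact_mod_cast this
    obtain ⟨g', hg'⟩ := hdv
    have hg0 : 0 < g' := Nat.pos_of_ne_zero (by rintro rfl; omega)
    have hinj : Set.InjOn (fun ξ : ℤ × ℤ => (ξ.1 / t, ξ.2 / t))
        (S.filter (fun ξ => Int.gcd ξ.1 ξ.2 = t) : Finset _) := by
      intro a ha b hb e
      simp only [Prod.mk.injEq] at e
      refine Prod.ext ?_ ?_
      · rw [(key a ha).1, (key b hb).1, e.1]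
      · rw [(key a ha).2.1, (key b hb).2.1, e.2]
    rw [← card_image_of_injOn hinj]
    refine (prim1 g' hg0 _ ?_).trans (Nat.mul_le_mul_left 25 (card_le_card ?_))
    · intro ξ hξ
      obtain ⟨a, ha, rfl⟩ := mem_image.1 hξ
      refine ⟨mul_left_cancel₀ (pow_ne_zero 2 ht1) ?_, (key a ha).2.2⟩
      have h1 := hS a (mem_filter.1 ha).1
      have h2 : (g : ℤ) = t ^ 2 * g' := by exact_mod_cast hg'
      simp only
      linear_combination h1 + h2 - (a.1 + t * (a.1 / t)) * (key a ha).1 -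
          (a.2 + t * (a.2 / t)) * (key a ha).2.1
    · exact Nat.divisors_subset_of_dvd hg.ne' ⟨t ^ 2, by rw [hg', mul_comm]⟩

/-- the lattice points of a circle inject into the representations of one integer -/
theorem circle_reps (c : ℝ × ℝ) (r : ℝ) (hr : 0 < r) (S : Finset (ℤ × ℤ))
    (hS : ∀ p ∈ S, ((p.1 : ℝ) - c.1) ^ 2 + ((p.2 : ℝ) - c.2) ^ 2 = r ^ 2) (h3 : 2 < S.card) :
    ∃ g : ℕ, 0 < g ∧ (g : ℝ) ≤ 64 * r ^ 6 ∧ S.card ≤ 25 * g.divisors.card * g.divisors.card := by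
  obtain ⟨p0, p1, p2, m0, m1, m2, n01, n02, n12⟩ := two_lt_card_iff.1 h3
  have key : ∀ p ∈ S, (((p.1 - p0.1) ^ 2 + (p.2 - p0.2) ^ 2 : ℤ) : ℝ) =
      2 * ((p.1 - p0.1 : ℤ) * (c.1 - p0.1) + (p.2 - p0.2 : ℤ) * (c.2 - p0.2)) := by
    intro p hp
    push_cast
    linear_combination hS p hp - hS p0 m0
  have bd : ∀ p ∈ S, (((p.1 - p0.1) ^ 2 + (p.2 - p0.2) ^ 2 : ℤ) : ℝ) ≤ 4 * r ^ 2 := by
    intro p hp
    have h1 := hS p hp
    have h2 := hS p0 m0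
    push_cast
    nlinarith [sq_nonneg ((p.1 : ℝ) + p0.1 - 2 * c.1), sq_nonneg ((p.2 : ℝ) + p0.2 - 2 * c.2)]
  have k1 := key p1 m1
  have k2 := key p2 m2
  have d1 := bd p1 m1
  have d2 := bd p2 m2
  have z1 : p1.1 - p0.1 ≠ 0 ∨ p1.2 - p0.2 ≠ 0 := by
    by_contra h
    push Not at h
    exact n01 (Prod.ext (by omega) (by omega))
  have z2 : p2.1 - p0.1 ≠ 0 ∨ p2.2 - p0.2 ≠ 0 := by
    by_contra h
    push Not at h
    exact n02 (Prod.ext (by omega) (by omega))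
  have z3 : p1.1 - p0.1 ≠ p2.1 - p0.1 ∨ p1.2 - p0.2 ≠ p2.2 - p0.2 := by
    by_contra h
    push Not at h
    exact n12 (Prod.ext (by omega) (by omega))
  generalize p1.1 - p0.1 = u1 at *
  generalize p1.2 - p0.2 = u2 at *
  generalize p2.1 - p0.1 = v1 at *
  generalize p2.2 - p0.2 = v2 at *
  obtain ⟨A, hA⟩ : ∃ A : ℤ, A = u1 * v2 - u2 * v1 := ⟨_, rfl⟩
  obtain ⟨a, ha⟩ : ∃ a : ℤ, a = (u1 ^ 2 + u2 ^ 2) * v2 - (v1 ^ 2 + v2 ^ 2) * u2 := ⟨_, rfl⟩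
  obtain ⟨b, hb⟩ : ∃ b : ℤ, b = (v1 ^ 2 + v2 ^ 2) * u1 - (u1 ^ 2 + u2 ^ 2) * v1 := ⟨_, rfl⟩
  have ea : (a : ℝ) = 2 * A * (c.1 - p0.1) := by
    rw [ha, hA]; push_cast at k1 k2 ⊢; linear_combination v2 * k1 - u2 * k2
  have eb : (b : ℝ) = 2 * A * (c.2 - p0.2) := by
    rw [hb, hA]; push_cast at k1 k2 ⊢; linear_combination u1 * k2 - v1 * k1
  have hA0 : A ≠ 0 := by
    intro h0
    have a0 : a = 0 := by
      have : (a : ℝ) = 0 := by rw [ea, h0]; simp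
      exact_mod_cast this
    have b0 : b = 0 := by
      have : (b : ℝ) = 0 := by rw [eb, h0]; simp
      exact_mod_cast this
    have pu : 0 < u1 ^ 2 + u2 ^ 2 := by rcases z1 with h | h <;> positivity
    have pv : 0 < v1 ^ 2 + v2 ^ 2 := by rcases z2 with h | h <;> positivity
    have e : (u1 ^ 2 + u2 ^ 2) * (v1 ^ 2 + v2 ^ 2) * ((u1 ^ 2 + u2 ^ 2) - (v1 ^ 2 + v2 ^ 2)) = 0 := by
      rw [a0] at ha
      rw [b0] at hb
      linear_combination (-((u1 ^ 2 + u2 ^ 2) * v2 + (v1 ^ 2 + v2 ^ 2) * u2)) * ha +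
        ((v1 ^ 2 + v2 ^ 2) * u1 + (u1 ^ 2 + u2 ^ 2) * v1) * hb
    have e' : v1 ^ 2 + v2 ^ 2 = u1 ^ 2 + u2 ^ 2 := by
      have := (mul_eq_zero.1 e).resolve_left (by positivity)
      omega
    rw [a0, e', ← mul_sub] at ha
    rw [b0, e', ← mul_sub] at hb
    have := (mul_eq_zero.1 ha.symm).resolve_left pu.ne'
    have := (mul_eq_zero.1 hb.symm).resolve_left pu.ne'
    omega
  have eg : (((a ^ 2 + b ^ 2).toNat : ℕ) : ℤ) = a ^ 2 + b ^ 2 := Int.toNat_of_nonneg (by positivity)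
  have eg' : (((a ^ 2 + b ^ 2).toNat : ℕ) : ℝ) = 4 * (A : ℝ) ^ 2 * r ^ 2 := by
    have : ((((a ^ 2 + b ^ 2).toNat : ℕ) : ℤ) : ℝ) = 4 * (A : ℝ) ^ 2 * r ^ 2 := by
      rw [eg]; push_cast; rw [ea, eb]; linear_combination 4 * (A : ℝ) ^ 2 * hS p0 m0
    exact_mod_cast this
  have hA' : (A : ℝ) ≠ 0 := by exact_mod_cast hA0
  have gpos : 0 < (a ^ 2 + b ^ 2).toNat := by
    have : (0 : ℝ) < ((a ^ 2 + b ^ 2).toNat : ℕ) := by rw [eg']; positivity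
    exact_mod_cast this
  refine ⟨_, gpos, ?_, ?_⟩
  · rw [eg']
    have h1 : (A : ℝ) ^ 2 ≤ (4 * r ^ 2) * (4 * r ^ 2) := by
      refine le_trans ?_ (mul_le_mul d1 d2 (by positivity) (by positivity))
      rw [hA]; push_cast
      nlinarith [sq_nonneg ((u1 : ℝ) * v1 + u2 * v2)]
    nlinarith [sq_nonneg r]
  · have hinj : Set.InjOn (fun p : ℤ × ℤ => (2 * A * (p.1 - p0.1) - a, 2 * A * (p.2 - p0.2) - b))
        S := by
      intro p _ q _ e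
      simp only [Prod.mk.injEq, sub_left_inj] at e
      have h2 : 2 * A ≠ 0 := by omega
      exact Prod.ext (by have := mul_left_cancel₀ h2 e.1; omega)
        (by have := mul_left_cancel₀ h2 e.2; omega)
    rw [← card_image_of_injOn hinj]
    refine all1 _ gpos _ fun ξ hξ => ?_
    obtain ⟨p, hp, rfl⟩ := mem_image.1 hξ
    rw [eg]
    have : (((2 * A * (p.1 - p0.1) - a) ^ 2 + (2 * A * (p.2 - p0.2) - b) ^ 2 : ℤ) : ℝ) =
        ((a ^ 2 + b ^ 2 : ℤ) : ℝ) := by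
      have := key p hp
      push_cast at this ⊢
      rw [ea, eb]
      linear_combination 4 * (A : ℝ) ^ 2 * this
    exact_mod_cast this

theorem circle_bound {ε : ℝ} (hε : 0 < ε) : ∃ C : ℝ, 0 < C ∧ ∀ (c : ℝ × ℝ) (r B : ℝ), 0 < r →
    r ≤ B → 1 ≤ B → ∀ S : Finset (ℤ × ℤ),
      (∀ p ∈ S, ((p.1 : ℝ) - c.1) ^ 2 + ((p.2 : ℝ) - c.2) ^ 2 = r ^ 2) → S.card ≤ C * B ^ ε := by
  obtain ⟨C, hC, h⟩ := div_bound (ε := ε / 12) (by positivity)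
  have h64 : 1 ≤ (64 : ℝ) ^ (ε / 6) := Real.one_le_rpow (by norm_num) (by positivity)
  refine ⟨25 * C ^ 2 * 64 ^ (ε / 6), by positivity, fun c r B hr hB h1 S hS => ?_⟩
  have hB1 : 1 ≤ B ^ ε := Real.one_le_rpow h1 hε.le
  by_cases h3 : 2 < S.card
  · obtain ⟨g, g0, g1, g2⟩ := circle_reps c r hr S hS h3
    have k1 := h g g0.ne'
    have k2 : (g : ℝ) ^ (ε / 6) ≤ 64 ^ (ε / 6) * B ^ ε := by
      have : (g : ℝ) ≤ 64 * B ^ 6 := g1.trans (by gcongr)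
      refine (Real.rpow_le_rpow (by positivity) this (by positivity)).trans (le_of_eq ?_)
      rw [Real.mul_rpow (by norm_num) (by positivity), ← Real.rpow_natCast B 6,
        ← Real.rpow_mul (by positivity)]
      congr 2
      push_cast
      ring
    have k3 : (g : ℝ) ^ (ε / 12) * (g : ℝ) ^ (ε / 12) = (g : ℝ) ^ (ε / 6) := by
      rw [← Real.rpow_add (by exact_mod_cast g0)]
      congr 1
      ring
    calc (S.card : ℝ) ≤ 25 * g.divisors.card * g.divisors.card := by exact_mod_cast g2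
      _ ≤ 25 * (C * (g : ℝ) ^ (ε / 12)) * (C * (g : ℝ) ^ (ε / 12)) := by gcongr
      _ = 25 * C ^ 2 * (g : ℝ) ^ (ε / 6) := by rw [← k3]; ring
      _ ≤ 25 * C ^ 2 * (64 ^ (ε / 6) * B ^ ε) := by gcongr
      _ = _ := by ring
  · have : (S.card : ℝ) ≤ 2 := by exact_mod_cast not_lt.1 h3
    have h2 : 1 ≤ C ^ 2 := one_le_pow₀ hC
    have h4 : 1 ≤ C ^ 2 * 64 ^ (ε / 6) * B ^ ε :=
      one_le_mul_of_one_le_of_one_le (one_le_mul_of_one_le_of_one_le h2 h64) hB1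
    linarith

end Pool.Agent.P.MP_1a0d2e_nt
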